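import Mathlib

set_option autoImplicit false

namespace Pool.Agent.H.MP_7489b4_an

open Set Filter Topology Real MeasureTheory Metric

noncomputable section

/-- completed graph, first coordinate rescaled -/
def gr (α : ℝ) (f : ℝ → ℝ) : Set (ℝ × ℝ) := (fun p : ℝ × ℝ => (p.1 / α, p.2)) ''
  {p | min (f p.1) (liminf f (𝓝[≠] p.1)) ≤ p.2 ∧ p.2 ≤ max (f p.1) (limsup f (𝓝[≠] p.1))}

theorem two {k f : ℝ → ℝ} (ki : Integrable k) (k0 : ∀ s, 0 ≤ k s) (k1 : ∫ s, k s = 1) (mf : AEMeasurable f)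
    {B a x y U L δ h c r ε : ℝ} (hB : ∀ t, |f t| ≤ B) (hU : ∀ t, |t - a| < 2 * δ → L ≤ f t ∧ f t ≤ U)
    (hx : |x - a| + h ≤ r) (hy : |y - a| + h ≤ r) (hδ : r < δ) (h0 : 0 < h) (e0 : 0 ≤ ε)
    (hc : ∀ s, |s| ≤ r → c / h ≤ k s) (ht : ∀ s, δ ≤ |s| → k s ≤ ε * exp (-1 * s ^ 2)) :
    2 * c * (U - L) - 2 * (ε * (|U| + |L| + B) * √(π / 1)) ≤
      U - (∫ s, f (x + s) * k s) + ((∫ s, f (y + s) * k s) - L) := by
  have i : ∀ x, Integrable fun t => f t * k (t - x) := fun x =>
    (ki.comp_sub_right x).bdd_mul mf.aestronglyMeasurable (.of_forall hB)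
  have e : ∀ x, ∫ s, f (x + s) * k s = ∫ t, f t * k (t - x) := fun x => by
    simpa using integral_add_left_eq_self (μ := volume) (fun t => f t * k (t - x)) x
  have g : ∀ x, Integrable fun t : ℝ => ε * (|U| + |L| + B) * exp (-1 * (t - x) ^ 2) := fun x =>
    ((integrable_exp_neg_mul_sq one_pos).comp_sub_right x).const_mul _
  have j : Integrable ((Icc (a - h) (a + h)).indicator fun _ => c / h * (U - L)) :=
    (integrable_indicator_iff measurableSet_Icc).2 (integrableOn_const (by simp))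
  have := integral_mono ((j.sub (g x)).sub (g y)) (((((ki.comp_sub_right x).const_mul U).sub (i x))).add
    ((i y).sub ((ki.comp_sub_right y).const_mul L))) fun t => by
    have p := abs_le.1 (hB t)
    have q := k0 (t - x)
    have q' := k0 (t - y)
    have u := abs_sub_le t x a
    have v := abs_sub_le t y a
    have b0 : 0 ≤ |U| + |L| + B := by linarith [abs_nonneg U, abs_nonneg L]
    simp only [Pi.sub_apply, Pi.add_apply]
    by_cases d : |t - a| < 2 * δ
    · have w := hU t d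
      have : 0 ≤ ε * (|U| + |L| + B) * exp (-1 * (t - x) ^ 2) := by positivity
      have : 0 ≤ ε * (|U| + |L| + B) * exp (-1 * (t - y) ^ 2) := by positivity
      by_cases m : t ∈ Icc (a - h) (a + h)
      · have n : |t - a| ≤ h := abs_le.2 ⟨by linarith [m.1], by linarith [m.2]⟩
        rw [indicator_of_mem m]
        nlinarith [hc (t - x) (by linarith [abs_sub_le t a x, abs_sub_comm a x]),
          hc (t - y) (by linarith [abs_sub_le t a y, abs_sub_comm a y])]
      rw [indicator_of_notMem m]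
      nlinarith
    rw [indicator_of_notMem fun m => d (abs_lt.2 ⟨by linarith [m.1, abs_nonneg (x - a)],
      by linarith [m.2, abs_nonneg (x - a)]⟩)]
    nlinarith [mul_le_mul_of_nonneg_left (ht (t - x) (by linarith)) b0, mul_le_mul_of_nonneg_left
      (ht (t - y) (by linarith)) b0, neg_abs_le U, le_abs_self L, abs_nonneg U, abs_nonneg L]
  rw [integral_sub' (j.sub (g x)) (g y), integral_sub' j (g x), integral_add' ((((ki.comp_sub_right x).const_mul
    U).sub (i x))) ((i y).sub ((ki.comp_sub_right y).const_mul L)), integral_sub' ((ki.comp_sub_right x).const_mul U)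
    (i x), integral_sub' (i y) ((ki.comp_sub_right y).const_mul L), integral_indicator measurableSet_Icc] at this
  simp only [integral_const_mul, integral_sub_right_eq_self k, integral_gaussian, k1,
    integral_sub_right_eq_self fun t : ℝ => exp (-1 * t ^ 2)] at this
  rw [e, e]
  simp only [integral_const, MeasurableSet.univ, measureReal_restrict_apply, univ_inter, volume_real_Icc,
    max_eq_left (show 0 ≤ a + h - (a - h) by linarith), smul_eq_mul] at this
  rw [show c / h * ((a + h - (a - h)) * (U - L)) = 2 * c * (U - L) by field_simp; ring] at this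
  linarith

theorem near {g : ℝ → ℝ} {B x y η : ℝ} (hB : ∀ t, |g t| ≤ B) (h : 0 < η) :
    (y ≤ max (g x) (limsup g (𝓝[≠] x)) → ∃ z, |z - x| < η ∧ y - η < g z) ∧
      (min (g x) (liminf g (𝓝[≠] x)) ≤ y → ∃ z, |z - x| < η ∧ g z < y + η) := by
  have b : ∀ᶠ z in 𝓝[≠] x, |z - x| < η := nhdsWithin_le_nhds (ball_mem_nhds x h)
  refine ⟨fun a => (le_max_iff.1 a).elim (fun a => ⟨x, by simpa, by linarith⟩) fun a => ?_,
    fun a => (min_le_iff.1 a).elim (fun a => ⟨x, by simpa, by linarith⟩) fun a => ?_⟩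
  · exact (b.and_frequently (frequently_lt_of_lt_limsup (isCoboundedUnder_le_of_le _ fun t => (abs_le.1 (hB t)).1)
      (by linarith))).exists
  exact (b.and_frequently (frequently_lt_of_liminf_lt (isCoboundedUnder_ge_of_le _ fun t => (abs_le.1 (hB t)).2)
    (by linarith))).exists

theorem core {ι : Type} {l : Filter ι} [l.NeBot] {k g : ι → ℝ → ℝ} {h : ι → ℝ} {w : ι → ENNReal} {f : ℝ → ℝ}
    {α B : ℝ} (hα : 0 < α) (mf : AEMeasurable f) (hB : ∀ t, |f t| ≤ B) (h0 : Tendsto h l (𝓝 0))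
    (hk : ∀ᶠ n in l, Integrable (k n) ∧ (∀ s, 0 ≤ k n s) ∧ ∫ s, k n s = 1 ∧ 0 < h n ∧
      (∀ x, g n x = ∫ s, f (x + s) * k n s) ∧ w n = hausdorffEDist (gr α f) (gr α (g n)) / .ofReal (h n))
    (hc : ∀ R > 0, ∃ c > 0, ∀ᶠ n in l, ∀ s, |s| ≤ R * h n → c / h n ≤ k n s)
    (ht : ∀ δ > 0, ∀ ε > 0, ∀ᶠ n in l, ∀ s, δ ≤ |s| → k n s ≤ ε * exp (-1 * s ^ 2))
    (hw : limsup w l < ⊤) : Continuous f := by
  obtain ⟨C, c1, c2⟩ := ENNReal.lt_iff_exists_nnreal_btwn.1 hw
  obtain ⟨c, c0, hc⟩ := hc (α * C + 2) (by positivity)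
  refine continuous_iff_continuousAt.2 fun a => ?_
  set M := max (f a) (limsup f (𝓝[≠] a))
  set m := min (f a) (liminf f (𝓝[≠] a))
  have u : ∀ e > 0, ∀ᶠ t in 𝓝 a, m - e ≤ f t ∧ f t ≤ M + e := fun e p => by
    rw [← nhdsNE_sup_pure, eventually_sup, eventually_pure]
    refine ⟨((eventually_lt_of_lt_liminf (by linarith [min_le_right (f a) (liminf f (𝓝[≠] a))])
      (isBoundedUnder_of ⟨_, fun t => (abs_le.1 (hB t)).1⟩)).mono fun _ => le_of_lt).and
      ((eventually_lt_of_limsup_lt (by linarith [le_max_right (f a) (limsup f (𝓝[≠] a))])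
      (isBoundedUnder_of ⟨_, fun t => (abs_le.1 (hB t)).2⟩)).mono fun _ => le_of_lt), ?_, ?_⟩ <;>
    linarith [min_le_left (f a) (liminf f (𝓝[≠] a)), le_max_left (f a) (limsup f (𝓝[≠] a))]
  have mM : m ≤ M := min_le_of_left_le (le_max_left ..)
  suffices v : c * (M - m) ≤ 0 from Metric.tendsto_nhds.2 fun e p => (u (e / 2) (by positivity)).mono fun t q =>
    abs_lt.2 (by
      have := min_le_left (f a) (liminf f (𝓝[≠] a))
      have := le_max_left (f a) (limsup f (𝓝[≠] a))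
      have := nonpos_of_mul_nonpos_right v c0
      constructor <;> linarith [q.1, q.2])
  refine le_of_forall_pos_le_add fun e p => ?_
  obtain ⟨δ, d0, hδ⟩ := Metric.eventually_nhds_iff.1 (u (e / 3) (by positivity))
  let D := (|M + e / 3| + |m - e / 3| + B + 1) * √(π / 1)
  have b0 : 0 ≤ B := (abs_nonneg _).trans (hB 0)
  have D0 : 0 < D := by positivity
  obtain ⟨n, ⟨ki, k0, k1, n0, gn, wn⟩, hc, ht, n1, n2, n3⟩ := (hk.and (hc.and ((ht (δ / 2) (by positivity) (e / 3 / D)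
    (by positivity)).and ((eventually_lt_of_limsup_lt c1).and (((h0.const_mul (α * C + 2)).eventually
      (gt_mem_nhds (show _ < δ / 2 by simpa using d0))).and ((h0.const_mul (C + 1 : ℝ)).eventually
      (gt_mem_nhds (show _ < e / 3 by simpa using p)))))))).exists
  rw [wn, ENNReal.div_lt_iff (.inl (by simpa)) (.inl ENNReal.ofReal_ne_top), ← ENNReal.ofReal_coe_nnreal,
    ← ENNReal.ofReal_mul C.coe_nonneg] at n1
  have gB : ∀ t, |g n t| ≤ B := fun t => by
    rw [gn]
    refine (norm_integral_le_of_norm_le (f := fun s => f (t + s) * k n s) (ki.const_mul B) (.of_forall fun s => ?_)).trans (by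
      rw [integral_const_mul, k1, mul_one])
    rw [norm_mul, norm_of_nonneg (k0 s)]
    exact mul_le_mul_of_nonneg_right (hB _) (k0 s)
  have t : ∀ v, m ≤ v → v ≤ M → ∃ x y, |x - a| ≤ α * C * h n ∧ |y - v| < C * h n ∧
      min (g n x) (liminf (g n) (𝓝[≠] x)) ≤ y ∧ y ≤ max (g n x) (limsup (g n) (𝓝[≠] x)) := fun v p q => by
    obtain ⟨_, ⟨⟨x, y⟩, r, rfl⟩, s⟩ := exists_edist_lt_of_hausdorffEDist_lt (x := (a / α, v))
      (show _ ∈ gr α f from ⟨(a, v), ⟨p, q⟩, rfl⟩) n1
    rw [edist_lt_ofReal, Prod.dist_eq, max_lt_iff, Real.dist_eq, Real.dist_eq, ← sub_div, abs_div, abs_of_pos hα,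
      div_lt_iff₀ hα, abs_sub_comm, abs_sub_comm v] at s
    exact ⟨x, y, by linarith [s.1], s.2, r⟩
  obtain ⟨x, y, x1, x2, -, x3⟩ := t M mM le_rfl
  obtain ⟨x', y', y1, y2, y3, -⟩ := t m le_rfl mM
  obtain ⟨z, z1, z2⟩ := (near gB n0).1 x3
  obtain ⟨z', z3, z4⟩ := (near gB n0).2 y3
  have := two ki k0 k1 mf hB (a := a) (x := z) (y := z') (δ := δ / 2) (fun t q => hδ (by rwa [mul_div_cancel₀ _
    two_ne_zero] at q)) (by linarith [abs_sub_le z x a]) (by linarith [abs_sub_le z' x' a]) n2 n0 (by positivity) hc ht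
  have q : e / 3 / D * (|M + e / 3| + |m - e / 3| + B) * √(π / 1) ≤ e / 3 := by
    rw [mul_assoc, div_mul_eq_mul_div, div_le_iff₀ D0]
    unfold D
    exact mul_le_mul_of_nonneg_left (mul_le_mul_of_nonneg_right (by linarith) (sqrt_nonneg _)) (by positivity)
  rw [← gn, ← gn] at this
  nlinarith [abs_lt.1 x2, abs_lt.1 y2, mul_pos c0 p]

theorem cW {f : ℝ → ℝ} {α B : ℝ} (hα : 0 < α) (mf : AEMeasurable f) (hB : ∀ t, |f t| ≤ B)
    (hw : limsup (fun n : ℕ => .ofReal √n * hausdorffEDist (gr α f) (gr α fun x =>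
      √(n / π) * ∫ s, f (x + s) * exp (-n * s ^ 2))) atTop < ⊤) : Continuous f := by
  have s := tendsto_sqrt_atTop.comp (tendsto_natCast_atTop_atTop (R := ℝ))
  refine core (k := fun (n : ℕ) s => √(n / π) * exp (-n * s ^ 2))
    (g := fun n x => √(n / π) * ∫ s, f (x + s) * exp (-n * s ^ 2)) (h := fun n : ℕ => (√n)⁻¹) hα mf hB s.inv_tendsto_atTop
    ((eventually_gt_atTop 0).mono fun n a => ⟨(integrable_exp_neg_mul_sq (by positivity)).const_mul _,
      fun _ => by positivity, ?_, by positivity, fun x => ?_, ?_⟩) (fun R a => ⟨exp (-R ^ 2) / √π, by positivity,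
      (eventually_gt_atTop 0).mono fun n b s c => ?_⟩) (fun δ a ε b => ?_) hw
  · rw [integral_const_mul, integral_gaussian, ← sqrt_mul (by positivity), sqrt_eq_one]
    field_simp
  · simp only [← integral_const_mul, mul_left_comm]
  · rw [ENNReal.ofReal_inv_of_pos (by positivity), ENNReal.div_eq_inv_mul, inv_inv]
  · have : (n : ℝ) * s ^ 2 ≤ R ^ 2 := by
      have := pow_le_pow_left₀ (abs_nonneg _) c 2
      rwa [sq_abs, mul_pow, inv_pow, sq_sqrt (by positivity), ← div_eq_mul_inv, le_div_iff₀' (by positivity)] at this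
    rw [sqrt_div (by positivity), div_inv_eq_mul, div_mul_eq_mul_div, div_mul_eq_mul_div, mul_comm]
    gcongr
    linarith
  have := (tendsto_self_mul_const_pow_of_lt_one (exp_pos (-δ ^ 2)).le (by simpa using pow_pos a 2)).mul_const (exp (δ ^ 2))
  filter_upwards [this.eventually (ge_mem_nhds (show _ < ε by simpa)), eventually_ge_atTop 1] with n c d s e
  rify at d
  have q : √(n / π) ≤ n := sqrt_le_iff.2 ⟨by positivity, by
    rw [div_le_iff₀ pi_pos]
    nlinarith [mul_le_mul d pi_gt_three.le (by norm_num) (by positivity)]⟩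
  rw [← exp_nat_mul, mul_assoc, ← exp_add] at c
  refine le_trans ?_ (mul_le_mul_of_nonneg_right c (exp_pos _).le)
  rw [mul_assoc, ← exp_add]
  gcongr
  nlinarith [mul_le_mul_of_nonneg_left (sq_abs s ▸ pow_le_pow_left₀ a.le e 2) (sub_nonneg.2 d)]

theorem core' {ι : Type} {l : Filter ι} [l.NeBot] {k g : ι → ℝ → ℝ} {h : ι → ℝ} {w : ι → ENNReal} {f : ℝ → ℝ}
    {α B : ℝ} (hα : 0 < α) (mf : AEMeasurable f) (hB : ∀ t, |f t| ≤ B) (h0 : Tendsto h l (𝓝 0))
    (hk : ∀ᶠ n in l, Continuous (k n) ∧ (∀ s, 0 ≤ k n s) ∧ ∫ s in -π..π, k n s = 1 ∧ 0 < h n ∧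
      (∀ x, g n x = ∫ s in -π..π, f (x + s) * k n s) ∧ w n = hausdorffEDist (gr α f) (gr α (g n)) / .ofReal (h n))
    (hc : ∀ R > 0, ∃ c > 0, ∀ᶠ n in l, ∀ s, |s| ≤ R * h n → c / h n ≤ k n s)
    (ht : ∀ δ ∈ Ioc 0 π, ∀ ε > 0, ∀ᶠ n in l, ∀ s, δ ≤ |s| → |s| ≤ π → k n s ≤ ε)
    (hw : limsup w l < ⊤) : Continuous f := by
  have o : -π ≤ π := by linarith [pi_pos]
  refine core (k := fun n => (Ioc (-π) π).indicator (k n)) (g := g) hα mf hB h0 (hk.mono fun n a =>
    ⟨(integrable_indicator_iff measurableSet_Ioc).2 (a.1.intervalIntegrable _ _).1, fun s => indicator_nonneg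
      (fun s _ => a.2.1 s) s, ?_, a.2.2.2.1, fun x => ?_, a.2.2.2.2.2⟩) (fun R a => (hc R a).imp fun c d => ⟨d.1, ?_⟩)
    (fun δ a ε b => ?_) hw
  · rw [integral_indicator measurableSet_Ioc, ← intervalIntegral.integral_of_le o, a.2.2.1]
  · simp only [a.2.2.2.2.1, intervalIntegral.integral_of_le o, ← integral_indicator measurableSet_Ioc]
    congr
    exact funext fun s => indicator_mul_right ..
  · filter_upwards [d.2, (h0.const_mul R).eventually (gt_mem_nhds (show _ < π by simpa using pi_pos))] with n p q s r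
    rw [indicator_of_mem (Ioo_subset_Ioc_self (abs_lt.1 (r.trans_lt q)))]
    exact p s r
  filter_upwards [ht (min δ π) ⟨lt_min a pi_pos, min_le_right ..⟩ (ε * exp (-1 * π ^ 2)) (by positivity)] with n p s q
  refine indicator_apply_le' (fun r => (p s (min_le_of_left_le q) (abs_le.2 ⟨r.1.le, r.2⟩)).trans ?_)
    fun _ => by positivity
  exact mul_le_mul_of_nonneg_left (exp_le_exp.2 (by nlinarith [r.1, r.2])) b.le

theorem cP {f : ℝ → ℝ} {α B : ℝ} (hα : 0 < α) (mf : AEMeasurable f) (hB : ∀ t, |f t| ≤ B)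
    (hw : limsup (fun ρ : ℝ => hausdorffEDist (gr α f) (gr α fun x => 1 / (2 * π) * ∫ s in -π..π,
      f (x + s) * ((1 - ρ ^ 2) / (1 + ρ ^ 2 - 2 * ρ * cos s))) / .ofReal (1 - ρ)) (𝓝[<] 1) < ⊤) : Continuous f := by
  have e : ∀ᶠ ρ in 𝓝[<] (1 : ℝ), ρ ∈ Ioo (1 / 2) 1 := Ioo_mem_nhdsLT one_half_lt_one
  have d : ∀ ρ ∈ Ioo (1 / 2 : ℝ) 1, ∀ s, 0 < 1 + ρ ^ 2 - 2 * ρ * cos s := fun ρ a s => by
    nlinarith [a.1, a.2, cos_le_one s, mul_pos (sub_pos.2 a.2) (sub_pos.2 a.2)]
  have t : Tendsto (fun ρ : ℝ => 1 - ρ) (𝓝[<] 1) (𝓝 0) :=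
    ((continuous_sub_left 1).tendsto' 1 0 (sub_self _)).mono_left nhdsWithin_le_nhds
  refine core' (k := fun ρ s => 1 / (2 * π) * ((1 - ρ ^ 2) / (1 + ρ ^ 2 - 2 * ρ * cos s)))
    (g := fun ρ x => 1 / (2 * π) * ∫ s in -π..π, f (x + s) * ((1 - ρ ^ 2) / (1 + ρ ^ 2 - 2 * ρ * cos s))) hα mf hB t
    (e.mono fun ρ a => ⟨continuous_const.mul (continuous_const.div (by fun_prop) fun s => (d ρ a s).ne'),
      fun s => mul_nonneg (by positivity) (div_nonneg (by nlinarith [a.1, a.2]) (d ρ a s).le), ?_, sub_pos.2 a.2,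
      fun x => ?_, rfl⟩) (fun R a => ⟨1 / (2 * π) / (1 + R ^ 2), by positivity, e.mono fun ρ b s c => ?_⟩)
    (fun δ a ε b => ?_) hw
  · have p : ∀ s, 1 - ρ * cos s ≠ 0 := fun s => by nlinarith [a.1, a.2, cos_le_one s]
    rw [intervalIntegral.integral_const_mul, intervalIntegral.integral_eq_sub_of_hasDerivAt
      (f := fun s => s + 2 * arctan (ρ * sin s / (1 - ρ * cos s))) (fun s _ => ?_)
      ((continuous_const.div₀ (by fun_prop) fun s => (d ρ a s).ne').intervalIntegrable _ _)]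
    · simp
      field_simp
      norm_num
    refine ((hasDerivAt_id s).add ((((hasDerivAt_sin s).const_mul ρ).div (((hasDerivAt_cos s).const_mul
      ρ).const_sub 1) (p s)).arctan.const_mul 2)).congr_deriv ?_
    have := (d ρ a s).ne'
    have := p s
    have q : (1 - ρ * cos s) ^ 2 + ρ ^ 2 * sin s ^ 2 = 1 + ρ ^ 2 - 2 * ρ * cos s := by
      linear_combination ρ ^ 2 * sin_sq_add_cos_sq s
    simp only [Pi.div_apply]
    field_simp
    rw [q]
    field_simp
    linear_combination (-2 * ρ ^ 2 * (1 + ρ ^ 2 - 2 * ρ * cos s)) * sin_sq_add_cos_sq s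
  · simp only [← intervalIntegral.integral_const_mul, mul_left_comm]
  · have := sub_pos.2 b.2
    rw [div_div, div_eq_mul_one_div (1 / (2 * π))]
    refine mul_le_mul_of_nonneg_left ?_ (by positivity)
    rw [div_le_div_iff₀ (by positivity) (d ρ b s)]
    have := sq_abs s ▸ pow_le_pow_left₀ (abs_nonneg _) c 2
    have q : 1 + ρ ^ 2 - 2 * ρ * cos s ≤ (1 + R ^ 2) * (1 - ρ) ^ 2 := by
      nlinarith [one_sub_sq_div_two_le_cos (x := s), b.1, b.2, sq_nonneg s]
    nlinarith [b.1, mul_pos (show 0 < 1 + R ^ 2 by positivity) (pow_pos ‹0 < 1 - ρ› 2)]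
  have c : 0 < 1 - cos δ := sub_pos.2 (cos_zero ▸ cos_lt_cos_of_nonneg_of_le_pi le_rfl a.2 a.1)
  filter_upwards [e, t.eventually (gt_mem_nhds (show 0 < ε * (1 - cos δ) by positivity))] with ρ p q s u v
  have := cos_abs s ▸ cos_le_cos_of_nonneg_of_le_pi a.1.le v u
  rw [div_mul_div_comm, div_le_iff₀ (mul_pos (by positivity) (d ρ p s))]
  have w : 1 - cos δ ≤ 1 + ρ ^ 2 - 2 * ρ * cos s := by nlinarith [p.1, sq_nonneg (1 - ρ)]
  nlinarith [p.1, p.2, mul_le_mul (mul_le_mul_of_nonneg_left pi_gt_three.le b.le) w c.le (by positivity)]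

theorem cV {f : ℝ → ℝ} {α B : ℝ} (hα : 0 < α) (mf : AEMeasurable f) (hB : ∀ t, |f t| ≤ B)
    (hw : limsup (fun n : ℕ => .ofReal √n * hausdorffEDist (gr α f) (gr α fun x => (n.factorial : ℝ) ^ 2 /
      (2 * n).factorial * (1 / (2 * π) * ∫ s in -π..π, f (x + s) * (2 * cos (s / 2)) ^ (2 * n)))) atTop < ⊤) :
    Continuous f := by
  have s := tendsto_sqrt_atTop.comp (tendsto_natCast_atTop_atTop (R := ℝ))
  let p := fun n : ℕ => ∏ i ∈ .range n, (2 * (i : ℝ) + 1) / (2 * i + 2)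
  have q : ∀ n : ℕ, (n.factorial : ℝ) ^ 2 / (2 * n).factorial * 2 ^ (2 * n) = (p n)⁻¹ ∧ 0 < p n ∧
      p n ^ 2 * (2 * n + 1) ≤ 1 ∧ 1 ≤ p n * (2 * n + 1) := fun n => by
    induction n with
    | zero => simp [p]
    | succ n ih =>
      obtain ⟨a, b, c, d⟩ := ih
      simp only [p, Finset.prod_range_succ, mul_inv, ← a] at b c d ⊢
      refine ⟨by push_cast [mul_add, Nat.factorial_succ]; field_simp; ring, by positivity, le_trans ?_ c, d.trans ?_⟩
      all_goals push_cast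
      · rw [mul_pow, mul_assoc]
        refine mul_le_mul_of_nonneg_left ?_ (sq_nonneg _)
        field_simp
        nlinarith
      rw [mul_assoc]
      refine mul_le_mul_of_nonneg_left ?_ b.le
      field_simp
      linarith
  refine core' (k := fun n s => (p n)⁻¹ / (2 * π) * cos (s / 2) ^ (2 * n)) (g := fun n x => (n.factorial : ℝ) ^ 2 /
      (2 * n).factorial * (1 / (2 * π) * ∫ s in -π..π, f (x + s) * (2 * cos (s / 2)) ^ (2 * n))) (h := fun n : ℕ => (√n)⁻¹) hα mf hB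
    s.inv_tendsto_atTop ((eventually_gt_atTop 0).mono fun n a => ⟨by fun_prop, fun _ => mul_nonneg
      (div_pos (inv_pos.2 (q n).2.1) two_pi_pos).le ((even_two_mul n).pow_nonneg _), ?_, by positivity, fun x => ?_,
      ?_⟩) (fun R a => ⟨(exp (-R ^ 2 / 8) / 2) ^ 2 / (2 * π), by positivity, ?_⟩) (fun δ a ε b => ?_) hw
  · have := intervalIntegral.integral_comp_add_right (a := -(π / 2)) (b := π / 2) (fun x => sin x ^ (2 * n)) (π / 2)
    simp only [sin_add_pi_div_two, neg_add_cancel, add_halves, integral_sin_pow_even] at this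
    rw [intervalIntegral.integral_const_mul, intervalIntegral.integral_comp_div (fun x => cos x ^ (2 * n))
      two_ne_zero, neg_div, this]
    have := (q n).2.1
    change _ * (2 * (π * p n)) = _
    field_simp
  · simp only [← intervalIntegral.integral_const_mul, ← (q n).1, mul_pow]
    congr
    ext
    ring
  · rw [ENNReal.ofReal_inv_of_pos (by positivity), ENNReal.div_eq_inv_mul, inv_inv]
  · filter_upwards [(tendsto_one_add_div_pow_exp (-R ^ 2 / 8)).eventually (le_mem_nhds (half_lt_self (exp_pos _))),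
      eventually_gt_atTop 0, tendsto_natCast_atTop_atTop.eventually_ge_atTop (R ^ 2 / 8)] with n b c d s e
    have : s ^ 2 ≤ R ^ 2 / n := by
      have := pow_le_pow_left₀ (abs_nonneg _) e 2
      rwa [sq_abs, mul_pow, inv_pow, sq_sqrt (by positivity)] at this
    have u : √n ≤ (p n)⁻¹ := sqrt_le_iff.2 ⟨(inv_pos.2 (q n).2.1).le, by
      rw [inv_pow, le_inv_comm₀ (by positivity) (pow_pos (q n).2.1 2), inv_eq_one_div, le_div_iff₀ (by positivity)]
      nlinarith [(q n).2.2.1, sq_nonneg (p n)]⟩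
    rw [div_inv_eq_mul, div_mul_eq_mul_div, div_mul_eq_mul_div, mul_comm, pow_mul']
    gcongr
    refine b.trans (pow_le_pow_left₀ ?_ (le_trans ?_ one_sub_sq_div_two_le_cos) n)
    · rw [neg_div, neg_div, ← sub_eq_add_neg, sub_nonneg, div_le_one (by positivity)]
      exact d
    rw [div_right_comm, neg_div]
    linarith
  have c := cos_nonneg_of_mem_Icc (x := δ / 2) ⟨by linarith [a.1, pi_pos], by linarith [a.2]⟩
  have d := cos_zero ▸ cos_lt_cos_of_nonneg_of_le_pi le_rfl (show δ / 2 ≤ π by linarith [a.1, a.2]) (half_pos a.1)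
  have := (tendsto_self_mul_const_pow_of_lt_one (sq_nonneg _) (pow_lt_one₀ c d two_ne_zero))
  filter_upwards [this.eventually (ge_mem_nhds b), eventually_ge_atTop 1] with n e g s u v
  rify at g
  refine le_trans (mul_le_mul ?_ ?_ ((even_two_mul n).pow_nonneg _) (by positivity)) e
  · rw [div_le_iff₀ two_pi_pos, inv_le_iff_one_le_mul₀ (q n).2.1]
    nlinarith [(q n).2.2.2, mul_le_mul_of_nonneg_left (show 2 * (n : ℝ) + 1 ≤ n * (2 * π) by
      nlinarith [pi_gt_three]) (q n).2.1.le]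
  rw [← pow_mul, ← cos_abs, abs_div, abs_two]
  exact pow_le_pow_left₀ (cos_nonneg_of_mem_Icc ⟨by linarith [abs_nonneg s, pi_pos], by linarith⟩)
    (cos_le_cos_of_nonneg_of_le_pi (by linarith [a.1]) (by linarith [pi_pos]) (by linarith)) _

end

end Pool.Agent.H.MP_7489b4_an
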